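import Pool.Agent.Helper27.PathSysDefs
import Pool.Agent.Helper27.PathSysProof

set_option autoImplicit false

namespace Pool.Agent.Results.MP_bd2bbd_co.Counterexample

open Pool.Agent.Helper27.PathSys

/-- There is a monotone consistent path system of diameter `2` on seven vertices that is not
strictly metric. -/
theorem result : ∃ P : PathSystem 7, P.Consistent ∧ P.HasDiameter 2 ∧ P.Monotone ∧
    ¬ P.StrictlyMetric :=
  exists_not_strictlyMetric

end Pool.Agent.Results.MP_bd2bbd_co.Counterexample
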